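import Pool.Agent.H29.BH.Targets2
import Pool.Agent.H61.DW.CLI
import Pool.Agent.H35.GLB.UDa
import Pool.Agent.H35.GLB.HP
import Pool.Agent.H29.DW.Tools
import Pool.Agent.H26.MV.Tors

/-!
# The trivial bound for the sums over the annulus
-/

set_option autoImplicit false

open NumberField NumberField.InfinitePlace NumberField.Units
  NumberField.Units.dirichletUnitTheorem MeasureTheory Set Filter Complex
open scoped nonZeroDivisors ENNReal

namespace Pool.Agent.H60.BH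

open Pool.Agent.H25.HK Pool.Agent.H23.LB Pool.Agent.H23.LC Pool.Agent.H29.DW
open Pool.Agent.H28.RC (Rep ft idl)
open Pool.Agent.H19.RC (Par)
open Pool.Agent.H29.BH
open Pool.Agent.H35.GLB (lu zl zl_mul zl_unit unf_norm mpT norm_idl yM_zl yc_cont)

section

open scoped Classical

variable {K : Type} [Field K] [NumberField K]

/-- unfolding for positive functions -/
theorem unf_pos (L : FI K) (hL : L ≠ 0) (Q : Ideal (𝓞 K) → logSpace K × ℝ → ℝ≥0∞)
    (hQ : ∀ J, Measurable (Q J)) :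
    ∑' x : {x : K // x ∈ L ∧ x ≠ 0},
      ∫⁻ p, Q (idl K L x) (p.1 + zl K x, p.2) ∂(Pool.Agent.H35.GLB.mz K) =
      (torsionOrder K : ℝ≥0∞) * ∑' J : {J : Ideal (𝓞 K) // Pri K L J}, ∫⁻ p, Q J.1 p := by
  obtain ⟨X, hX, hX1, hXM, hXu⟩ := Pool.Agent.H19.RC.bi2 K L hL
  have hP : Par L X := ⟨hX, fun J => (hX1 J).1, hXM, hXu⟩
  have hID := Pool.Agent.H20.HKI.d_ID
  have hco : Countable ({I : Ideal (𝓞 K) // Pri K L I} × (𝓞 K)ˣ) :=
    hP.countable Pool.Agent.H20.HKI.d_SM hL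
  let e : {J : Ideal (𝓞 K) // Pri K L J} × (𝓞 K)ˣ ≃ {x : K // x ∈ L ∧ x ≠ 0} :=
    Equiv.ofBijective (fun q => ⟨(q.2 : K) * X q.1, hP.XM _ _, hP.ne (q.1, q.2)⟩) (by
      constructor
      · rintro ⟨J, u⟩ ⟨J', u'⟩ h
        have h3 : (u : K) * X J = (u' : K) * X J' := congrArg Subtype.val h
        exact (hP.un _ (hP.XM J u) (hP.ne (J, u))).unique
          (y₁ := (J, u)) (y₂ := (J', u')) rfl h3
      · rintro ⟨x, hx⟩
        obtain ⟨p, hp, -⟩ := hP.un x hx.1 hx.2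
        exact ⟨p, Subtype.ext hp.symm⟩)
  have hid : ∀ q : {J : Ideal (𝓞 K) // Pri K L J} × (𝓞 K)ˣ,
      idl K L ((q.2 : K) * X q.1) = q.1.1 := fun q => hP.idl_eq hID hL (q.1, q.2)
  have hcu : ∀ J : {J : Ideal (𝓞 K) // Pri K L J}, Countable (𝓞 K)ˣ := fun J =>
    Function.Injective.countable (f := fun u : (𝓞 K)ˣ =>
      ((J, u) : {I : Ideal (𝓞 K) // Pri K L I} × (𝓞 K)ˣ)) fun u v h => (Prod.ext_iff.1 h).2
  have hzl : ∀ (q : {J : Ideal (𝓞 K) // Pri K L J} × (𝓞 K)ˣ) (z : logSpace K),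
      z + zl K ((q.2 : K) * X q.1) = (z + lu K q.2) + zl K (X q.1) := by
    intro q z
    rw [zl_mul K _ _ (by simp) (hP.X0 _), zl_unit, add_assoc]
  have hmT := fun J : {J : Ideal (𝓞 K) // Pri K L J} =>
    mpT K 1 (Or.inl rfl) (zl K (X J)) 0
  rw [← e.tsum_eq, ENNReal.tsum_prod', ← ENNReal.tsum_mul_left]
  refine tsum_congr fun J => ?_
  have hcJ := hcu J
  have h1 : Measurable (fun p : logSpace K × ℝ => Q J.1 (p.1 + zl K (X J), p.2)) := by
    have h2 := (hQ J.1).comp (hmT J).measurable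
    simp only [one_smul, add_zero] at h2
    exact h2
  have h3 : ∫⁻ p : logSpace K × ℝ, Q J.1 (p.1 + zl K (X J), p.2) = ∫⁻ p, Q J.1 p := by
    have h2 := (hmT J).lintegral_comp (hQ J.1)
    simp only [one_smul, add_zero] at h2
    exact h2
  have h4 := unf_norm K Pool.Agent.H66.HK.fd Pool.Agent.H41.HK.un
    (fun p : logSpace K × ℝ => Q J.1 (p.1 + zl K (X J), p.2)) h1
  rw [h3] at h4
  rw [← h4]
  refine tsum_congr fun u => ?_
  refine lintegral_congr fun p => ?_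
  change Q (idl K L ((u : K) * X J)) (p.1 + zl K ((u : K) * X J), p.2) = _
  rw [hid (J, u), hzl (J, u)]

/-- the sum over the classes -/
theorem cls_pos {ι : Type} [Fintype ι] (L : ι → FI K) (hL : Reps K L)
    (g : Ideal (𝓞 K) → ℝ≥0∞) :
    ∑ c, ∑' J : {J : Ideal (𝓞 K) // Pri K (L c) J}, g J.1 = ∑' J : NZI K, g J.1 := by
  let e : (Σ c : ι, {I : Ideal (𝓞 K) // Pri K (L c) I}) ≃ NZI K :=
    Equiv.ofBijective (fun q => ⟨q.2.1, q.2.2.1⟩) (by
      constructor
      · rintro ⟨c, J, hJ⟩ ⟨c', J', hJ'⟩ h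
        have h1 : J = J' := by simpa using h
        subst h1
        have h2 : c = c' := (hL.2 J hJ.1).unique hJ hJ'
        subst h2
        rfl
      · rintro ⟨J, hJ⟩
        obtain ⟨c, hc, -⟩ := hL.2 J hJ
        exact ⟨⟨c, J, hc⟩, rfl⟩)
  rw [← e.tsum_eq, ENNReal.tsum_sigma', tsum_fintype]
  rfl

/-- the indicator of the region of the positions -/
noncomputable def RR (p : logSpace K × ℝ) : ℝ≥0∞ :=
  if ∀ v : InfinitePlace K, |yc K p.2 p.1 v| ≤ 2 then 1 else 0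

theorem RR_meas : Measurable (RR (K := K)) := by
  unfold RR
  refine Measurable.ite ?_ measurable_const measurable_const
  have h : {p : logSpace K × ℝ | ∀ v : InfinitePlace K, |yc K p.2 p.1 v| ≤ 2} =
      ⋂ v, {p | |yc K p.2 p.1 v| ≤ 2} := by
    ext p
    simp
  rw [h]
  refine MeasurableSet.iInter fun v => ?_
  have h2 : Measurable (fun p : logSpace K × ℝ => yc K p.2 p.1 v) :=
    ((continuous_apply v).comp (yc_cont (K := K))).measurable
  exact measurableSet_le h2.abs measurable_const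

/-- the local bound -/
theorem Gm_le {k : ℤ} {μ w : ℂ} (hμ : |μ.re| ≤ 8) (h1 : 7 / 8 ≤ ‖w‖) (h2 : ‖w‖ ≤ 17 / 8) :
    ‖Gm k μ w‖ ≤ Real.exp 8 := by
  have h0 : 0 < ‖w‖ := by linarith
  unfold Gm
  rw [norm_mul, norm_zpow, norm_div, Complex.norm_real, Real.norm_of_nonneg h0.le,
    div_self h0.ne', one_zpow, one_mul, Complex.norm_exp]
  refine Real.exp_le_exp.2 ?_
  rw [Complex.re_mul_ofReal]
  have h3 : |Real.log ‖w‖| ≤ 1 := by
    rw [abs_le]
    constructor
    · have := Real.one_sub_inv_le_log_of_pos h0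
      have h5 : ‖w‖⁻¹ ≤ (7 / 8 : ℝ)⁻¹ := inv_anti₀ (by norm_num) h1
      norm_num at h5
      linarith
    · have h5 : (17 / 8 : ℝ) ≤ Real.exp 1 := by
        have := Real.exp_one_gt_d9
        linarith
      calc Real.log ‖w‖ ≤ Real.log (Real.exp 1) := Real.log_le_log h0 (h2.trans h5)
        _ = 1 := Real.log_exp 1
  calc μ.re * Real.log ‖w‖ ≤ |μ.re * Real.log ‖w‖| := le_abs_self _
    _ = |μ.re| * |Real.log ‖w‖| := abs_mul _ _
    _ ≤ 8 * 1 := mul_le_mul hμ h3 (abs_nonneg _) (by norm_num)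
    _ = 8 := by norm_num

/-- the support of the terms -/
theorem term_le {n : ℕ} (hn : Module.finrank ℚ K = n) (hPK : A_PK) {f : Ideal (𝓞 K)} (hf : f ≠ ⊥)
    (hCG : U_CG) (χ : HG K f) (M : FI K) (hM : M ≠ 0) (μ : InfinitePlace K → ℂ)
    (hμ : Qk χ.k μ) (τ : ℝ) (z : logSpace K) (x : K) (hx : x ∈ M) :
    ENNReal.ofReal ‖cg χ M x * (((PK (sy (yM K M τ z) x) : ℝ) : ℂ) *
      GG χ.k μ (sy (yM K M τ z) x))‖ ≤
      if x ≠ 0 then ENNReal.ofReal (Real.exp 8 ^ n) *
        RR (z + zl K x, τ + Real.log (Ideal.absNorm (idl K M x))) else 0 := by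
  by_cases h0 : PK (sy (yM K M τ z) x) = 0
  · rw [h0]
    simp
  · have hv : ∀ v, pk (rv v) (sy (yM K M τ z) x v) ≠ 0 := by
      intro v hv
      refine h0 ?_
      unfold PK
      exact Finset.prod_eq_zero (Finset.mem_univ v) (by rw [hv]; rfl)
    have hw : ∀ v, 7 / 8 ≤ ‖sy (yM K M τ z) x v‖ ∧ ‖sy (yM K M τ z) x v‖ ≤ 17 / 8 :=
      fun v => hPK.2.2.1 _ _ (hv v)
    have hx0 : x ≠ 0 := by
      rintro rfl
      obtain ⟨v⟩ := (inferInstance : Nonempty (InfinitePlace K))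
      have := (hw v).1
      unfold sy at this
      simp at this
      norm_num at this
    rw [if_pos hx0]
    have hR : RR (z + zl K x, τ + Real.log (Ideal.absNorm (idl K M x))) = 1 := by
      unfold RR
      rw [if_pos]
      intro v
      have h1 := congrFun (yM_zl K M hM x hx hx0 τ z) v
      simp only at h1 ⊢
      rw [← h1]
      have hvx : 0 < v x := by
        rw [InfinitePlace.pos_iff]
        exact hx0
      have h2 : ‖sy (yM K M τ z) x v‖ = v x * Real.exp (yM K M τ z v / 2) := by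
        unfold sy
        rw [norm_mul, Complex.norm_real, Real.norm_of_nonneg (Real.exp_pos _).le]
        congr 1
        exact InfinitePlace.norm_embedding_eq v x
      have h3 : Real.log ‖sy (yM K M τ z) x v‖ = Real.log (v x) + yM K M τ z v / 2 := by
        rw [h2, Real.log_mul hvx.ne' (Real.exp_pos _).ne', Real.log_exp]
      have hp : 0 < ‖sy (yM K M τ z) x v‖ := lt_of_lt_of_le (by norm_num) (hw v).1
      have h4 : |Real.log ‖sy (yM K M τ z) x v‖| ≤ 1 := by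
        rw [abs_le]
        constructor
        · have := Real.one_sub_inv_le_log_of_pos hp
          have h5 : ‖sy (yM K M τ z) x v‖⁻¹ ≤ (7 / 8 : ℝ)⁻¹ := inv_anti₀ (by norm_num) (hw v).1
          norm_num at h5
          linarith
        · have h5 : (17 / 8 : ℝ) ≤ Real.exp 1 := by
            have := Real.exp_one_gt_d9
            linarith
          calc Real.log ‖sy (yM K M τ z) x v‖ ≤ Real.log (Real.exp 1) :=
                Real.log_le_log hp ((hw v).2.trans h5)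
            _ = 1 := Real.log_exp 1
      rw [h3, abs_le] at h4
      rw [abs_le]
      constructor
      · linarith [h4.1]
      · linarith [h4.2]
    rw [hR, mul_one]
    refine ENNReal.ofReal_le_ofReal ?_
    have hc := (hCG K f χ M hf hM).2.1 x hx
    have hPK1 : ‖((PK (sy (yM K M τ z) x) : ℝ) : ℂ)‖ ≤ 1 := by
      rw [Complex.norm_real]
      unfold PK
      rw [Real.norm_of_nonneg (Finset.prod_nonneg fun v _ => ENNReal.toReal_nonneg)]
      refine Finset.prod_le_one (fun v _ => ENNReal.toReal_nonneg) fun v _ => ?_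
      have h1 := hPK.2.1 (rv v) (sy (yM K M τ z) x v)
      exact ENNReal.toReal_le_of_le_ofReal zero_le_one (by rwa [ENNReal.ofReal_one])
    have hGG : ‖GG χ.k μ (sy (yM K M τ z) x)‖ ≤ Real.exp 8 ^ n := by
      unfold GG
      rw [norm_prod]
      calc ∏ v, ‖Gm (χ.k v) (μ v) (sy (yM K M τ z) x v)‖ ≤
            ∏ _v : InfinitePlace K, Real.exp 8 :=
            Finset.prod_le_prod (fun v _ => norm_nonneg _) fun v _ =>
              Gm_le (hμ.loc v).re (hw v).1 (hw v).2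
        _ = Real.exp 8 ^ Fintype.card (InfinitePlace K) := by
            rw [Finset.prod_const, Finset.card_univ]
        _ ≤ Real.exp 8 ^ n := pow_le_pow_right₀ (Real.one_le_exp (by norm_num))
            (card_places_le hn)
    rw [norm_mul, norm_mul]
    calc ‖cg χ M x‖ * (‖((PK (sy (yM K M τ z) x) : ℝ) : ℂ)‖ *
          ‖GG χ.k μ (sy (yM K M τ z) x)‖) ≤ 1 * (1 * Real.exp 8 ^ n) := by
          gcongr
      _ = Real.exp 8 ^ n := by ring

theorem tsum_ne (M : FI K) (g : K → ℝ≥0∞) :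
    ∑' x : {x : K // x ∈ M}, (if x.1 ≠ 0 then g x.1 else 0) =
      ∑' x : {x : K // x ∈ M ∧ x ≠ 0}, g x.1 := by
  have h1 := tsum_subtype {x : K | x ∈ M} (fun x => if x ≠ 0 then g x else 0)
  have h2 := tsum_subtype {x : K | x ∈ M ∧ x ≠ 0} g
  refine h1.trans (Eq.trans ?_ h2.symm)
  refine tsum_congr fun x => ?_
  simp only [Set.indicator_apply, Set.mem_setOf_eq]
  by_cases hx : x ∈ M
  · by_cases h0 : x = 0
    · simp [h0]
    · simp [hx, h0]
  · simp [hx]

theorem yc_le (p : logSpace K × ℝ) (h : ∀ v, |yc K p.2 p.1 v| ≤ 2) :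
    |p.2| ≤ Module.finrank ℚ K := by
  have h1 := (Pool.Agent.H20.HKI.b_YC K).1 p.2 p.1
  have h2 : |2 * p.2| ≤ 2 * Module.finrank ℚ K := by
    rw [← h1]
    refine (Finset.abs_sum_le_sum_abs _ _).trans ?_
    rw [← sum_mult_eq (K := K), Nat.cast_sum, Finset.mul_sum]
    refine Finset.sum_le_sum fun v _ => ?_
    rw [abs_mul, Nat.abs_cast, mul_comm]
    exact mul_le_mul_of_nonneg_right (h v) (Nat.cast_nonneg _)
  rw [abs_mul, abs_two] at h2
  linarith

theorem countable_K (K : Type) [Field K] [NumberField K] : Countable K := by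
  have h1 := Algebraic.countable ℚ K
  have h2 : {x : K | IsAlgebraic ℚ x} = Set.univ :=
    Set.eq_univ_of_forall fun x => Algebra.IsAlgebraic.isAlgebraic x
  rw [h2] at h1
  exact Set.countable_univ_iff.1 h1

/-- the function of an ideal -/
noncomputable def QQ (τ₁ : ℝ) (J : Ideal (𝓞 K)) (p : logSpace K × ℝ) : ℝ≥0∞ :=
  (Icc τ₁ (τ₁ + 1)).indicator (fun _ => 1) p.2 *
    RR (p.1, p.2 + Real.log (Ideal.absNorm J))

theorem QQ_meas (τ₁ : ℝ) (J : Ideal (𝓞 K)) : Measurable (QQ τ₁ J) := by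
  unfold QQ
  refine Measurable.mul ?_ ?_
  · exact (measurable_const.indicator measurableSet_Icc).comp measurable_snd
  · exact RR_meas.comp (by fun_prop)

theorem QQ_int (hVL : U_VL) (n : ℕ) : ∃ C : ℝ, 0 ≤ C ∧ ∀ (K : Type) [Field K] [NumberField K],
    Module.finrank ℚ K = n → ∀ (τ₁ : ℝ) (J : Ideal (𝓞 K)), J ≠ ⊥ →
    ∫⁻ p, QQ τ₁ J p ≤ if (Ideal.absNorm J : ℝ) ≤ Real.exp n * Real.exp (-τ₁) then
      ENNReal.ofReal C else 0 := by
  obtain ⟨c0, Cv, hc0, hCv, hV⟩ := hVL n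
  refine ⟨Cv * 2 ^ n, by positivity, fun K _ _ hn τ₁ J hJ => ?_⟩
  have hN : (0 : ℝ) < Ideal.absNorm J := by
    have : 0 < Ideal.absNorm J := by
      rw [Nat.pos_iff_ne_zero, Ne, Ideal.absNorm_eq_zero_iff]
      exact hJ
    exact_mod_cast this
  split_ifs with h
  · have h1 : ∫⁻ p, QQ τ₁ J p ≤ ∫⁻ p : logSpace K × ℝ,
        RR (p.1, p.2 + Real.log (Ideal.absNorm J)) := by
      refine lintegral_mono fun p => ?_
      unfold QQ
      refine mul_le_of_le_one_left' ?_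
      by_cases h2 : p.2 ∈ Icc τ₁ (τ₁ + 1)
      · rw [indicator_of_mem h2]
      · rw [indicator_of_notMem h2]
        exact zero_le_one
    have h2 : ∫⁻ p : logSpace K × ℝ, RR (p.1, p.2 + Real.log (Ideal.absNorm J)) =
        ∫⁻ p : logSpace K × ℝ, RR p := by
      have h3 := (mpT K 1 (Or.inl rfl) 0 (Real.log (Ideal.absNorm J))).lintegral_comp
        (RR_meas (K := K))
      simp only [one_smul, add_zero] at h3
      exact h3
    have h3 : ∫⁻ p : logSpace K × ℝ, RR p =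
        volume {p : logSpace K × ℝ | ∀ v : InfinitePlace K, |yc K p.2 p.1 v| ≤ 2} := by
      have h4 : MeasurableSet {p : logSpace K × ℝ | ∀ v : InfinitePlace K,
          |yc K p.2 p.1 v| ≤ 2} := by
        have h5 : {p : logSpace K × ℝ | ∀ v : InfinitePlace K, |yc K p.2 p.1 v| ≤ 2} =
            RR ⁻¹' {1} := by
          ext p
          simp only [Set.mem_setOf_eq, Set.mem_preimage, Set.mem_singleton_iff]
          unfold RR
          split_ifs with h6
          · simp [h6]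
          · simp [h6]
        rw [h5]
        exact RR_meas (measurableSet_singleton 1)
      rw [← lintegral_indicator_one h4]
      refine lintegral_congr fun p => ?_
      unfold RR
      split_ifs with h6
      · rw [indicator_of_mem (by exact h6)]
        rfl
      · rw [indicator_of_notMem (by exact h6)]
    refine h1.trans ?_
    rw [h2, h3]
    refine ((hV K hn 2 (by norm_num) (by norm_num)).2).trans ?_
    refine ENNReal.ofReal_le_ofReal ?_
    refine mul_le_mul_of_nonneg_left ?_ hCv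
    refine pow_le_pow_right₀ (by norm_num) ?_
    have h7 := card_places_le hn
    rw [card_eq_nrRealPlaces_add_nrComplexPlaces] at h7
    exact h7
  · refine le_of_eq ?_
    rw [lintegral_eq_zero_iff (QQ_meas τ₁ J)]
    refine Filter.Eventually.of_forall fun p => ?_
    by_contra h1
    have h1' : QQ τ₁ J p ≠ 0 := h1
    unfold QQ at h1'
    rw [mul_ne_zero_iff] at h1'
    obtain ⟨h2, h3⟩ := h1'
    have h4 : p.2 ∈ Icc τ₁ (τ₁ + 1) := by
      by_contra h5
      exact h2 (indicator_of_notMem h5 _)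
    have h5 : ∀ v : InfinitePlace K, |yc K (p.2 + Real.log (Ideal.absNorm J)) p.1 v| ≤ 2 := by
      unfold RR at h3
      by_contra h6
      rw [if_neg h6] at h3
      exact h3 rfl
    have h6 := yc_le (p.1, p.2 + Real.log (Ideal.absNorm J)) h5
    simp only at h6
    rw [hn] at h6
    have h7 := (abs_le.1 h6).2
    refine h ?_
    rw [← Real.exp_add]
    calc (Ideal.absNorm J : ℝ) = Real.exp (Real.log (Ideal.absNorm J)) := (Real.exp_log hN).symm
      _ ≤ Real.exp (n + -τ₁) := Real.exp_le_exp.2 (by linarith [h4.1])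

/-- the sum over the ideals -/
theorem sum_QQ (hSE : Pool.Agent.H23.LB.T_SE) (hVL : U_VL) (n : ℕ) (κ : ℝ) (hκ : 0 < κ) :
    ∃ C : ℝ, 0 ≤ C ∧ ∀ (K : Type) [Field K] [NumberField K], Module.finrank ℚ K = n →
    ∀ τ₁ : ℝ, ∑' J : NZI K, ∫⁻ p, QQ τ₁ J.1 p ≤
      ENNReal.ofReal (C * Real.exp (-τ₁) ^ (1 + κ)) := by
  obtain ⟨C1, hC1, h1⟩ := QQ_int hVL n
  obtain ⟨C2, h2⟩ := hSE.2.1 n (1 + κ) (by linarith)
  refine ⟨C1 * (Real.exp n ^ (1 + κ) * |C2|), by positivity, fun K _ _ hn τ₁ => ?_⟩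
  set Y : ℝ := Real.exp n * Real.exp (-τ₁) with hY
  have hY0 : 0 < Y := by positivity
  have h3 : ∀ J : NZI K, ∫⁻ p, QQ τ₁ J.1 p ≤
      ENNReal.ofReal (C1 * Y ^ (1 + κ)) * ENNReal.ofReal ((Ideal.absNorm J.1 : ℝ) ^ (-(1 + κ))) := by
    intro J
    refine (h1 K hn τ₁ J.1 J.2).trans ?_
    have hN : (0 : ℝ) < Ideal.absNorm J.1 := by
      have : 0 < Ideal.absNorm J.1 := by
        rw [Nat.pos_iff_ne_zero, Ne, Ideal.absNorm_eq_zero_iff]
        exact J.2
      exact_mod_cast this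
    split_ifs with h4
    · rw [← ENNReal.ofReal_mul (by positivity)]
      refine ENNReal.ofReal_le_ofReal ?_
      have h5 : 1 ≤ Y ^ (1 + κ) * (Ideal.absNorm J.1 : ℝ) ^ (-(1 + κ)) := by
        rw [Real.rpow_neg hN.le, ← div_eq_mul_inv, ← Real.div_rpow hY0.le hN.le]
        exact Real.one_le_rpow ((one_le_div hN).2 h4) (by linarith)
      calc C1 = C1 * 1 := (mul_one _).symm
        _ ≤ C1 * (Y ^ (1 + κ) * (Ideal.absNorm J.1 : ℝ) ^ (-(1 + κ))) :=
            mul_le_mul_of_nonneg_left h5 hC1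
        _ = C1 * Y ^ (1 + κ) * (Ideal.absNorm J.1 : ℝ) ^ (-(1 + κ)) := by ring
    · exact zero_le
  refine (ENNReal.tsum_le_tsum h3).trans ?_
  rw [ENNReal.tsum_mul_left]
  have h4 : Summable (fun J : NZI K => (Ideal.absNorm J.1 : ℝ) ^ (-(1 + κ))) := by
    have h5 := hSE.1 K ((1 + κ : ℝ) : ℂ) (by
      rw [Complex.ofReal_re]
      linarith)
    refine h5.congr fun J => ?_
    have hN : 0 < Ideal.absNorm J.1 := by
      rw [Nat.pos_iff_ne_zero, Ne, Ideal.absNorm_eq_zero_iff]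
      exact J.2
    rw [Complex.norm_natCast_cpow_of_pos hN]
    simp
  rw [← ENNReal.ofReal_tsum_of_nonneg (fun J => by positivity) h4,
    ← ENNReal.ofReal_mul (by positivity)]
  refine ENNReal.ofReal_le_ofReal ?_
  have h5 := (h2 K hn).trans (le_abs_self C2)
  have h6 : Y ^ (1 + κ) = Real.exp n ^ (1 + κ) * Real.exp (-τ₁) ^ (1 + κ) :=
    Real.mul_rpow (Real.exp_pos _).le (Real.exp_pos _).le
  calc C1 * Y ^ (1 + κ) * ∑' J : NZI K, (Ideal.absNorm J.1 : ℝ) ^ (-(1 + κ)) ≤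
        C1 * Y ^ (1 + κ) * |C2| := mul_le_mul_of_nonneg_left h5 (by positivity)
    _ = C1 * (Real.exp n ^ (1 + κ) * |C2|) * Real.exp (-τ₁) ^ (1 + κ) := by
        rw [h6]
        ring

/-- the bound for one class -/
theorem cls_le {n : ℕ} (hn : Module.finrank ℚ K = n) (hPK : A_PK) {f : Ideal (𝓞 K)} (hf : f ≠ ⊥)
    (hCG : U_CG) (χ : HG K f) (M : FI K) (hM : M ≠ 0) (μ : InfinitePlace K → ℂ)
    (hμ : Qk χ.k μ) (τ₁ : ℝ) :
    ∫⁻ z in Fd K, ∫⁻ τ in Icc τ₁ (τ₁ + 1), ENNReal.ofReal ‖SS χ M (yM K M τ z) μ‖ ≤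
      ENNReal.ofReal (Real.exp 8 ^ n) * ((torsionOrder K : ℝ≥0∞) *
        ∑' J : {J : Ideal (𝓞 K) // Pri K M J}, ∫⁻ p, QQ τ₁ J.1 p) := by
  have hK := countable_K K
  set E : ℝ≥0∞ := ENNReal.ofReal (Real.exp 8 ^ n) with hE
  set G : logSpace K × ℝ → ℝ≥0∞ := fun p => ∑' x : {x : K // x ∈ M ∧ x ≠ 0},
    E * QQ τ₁ (idl K M x) (p.1 + zl K x, p.2) with hG
  have hm : ∀ x : {x : K // x ∈ M ∧ x ≠ 0},
      Measurable (fun p : logSpace K × ℝ => QQ τ₁ (idl K M x) (p.1 + zl K x, p.2)) :=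
    fun x => (QQ_meas τ₁ _).comp (by fun_prop)
  have hGm : Measurable G := Measurable.tsum fun x => (hm x).const_mul E
  have h1 : ∀ z : logSpace K, ∫⁻ τ in Icc τ₁ (τ₁ + 1),
      ENNReal.ofReal ‖SS χ M (yM K M τ z) μ‖ ≤ ∫⁻ τ : ℝ, G (z, τ) := by
    intro z
    rw [← lintegral_indicator measurableSet_Icc]
    refine lintegral_mono fun τ => ?_
    by_cases hτ : τ ∈ Icc τ₁ (τ₁ + 1)
    · rw [indicator_of_mem hτ, ofReal_norm]
      unfold SS
      refine le_trans enorm_tsum_le_tsum_enorm ?_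
      have h2 : ∀ x : {x : K // x ∈ M}, ‖cg χ M x * (((PK (sy (yM K M τ z) x.1) : ℝ) : ℂ) *
          GG χ.k μ (sy (yM K M τ z) x.1))‖ₑ ≤ if x.1 ≠ 0 then E *
            RR (z + zl K x.1, τ + Real.log (Ideal.absNorm (idl K M x.1))) else 0 := by
        intro x
        rw [← ofReal_norm]
        exact term_le hn hPK hf hCG χ M hM μ hμ τ z x.1 x.2
      refine (ENNReal.tsum_le_tsum h2).trans ?_
      rw [tsum_ne M (fun x => E * RR (z + zl K x, τ + Real.log (Ideal.absNorm (idl K M x))))]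
      refine le_of_eq (tsum_congr fun x => ?_)
      unfold QQ
      simp only
      rw [indicator_of_mem hτ, one_mul]
    · rw [indicator_of_notMem hτ]
      exact zero_le
  refine (lintegral_mono h1).trans ?_
  have h2 : ∫⁻ z in Fd K, ∫⁻ τ : ℝ, G (z, τ) = ∫⁻ p, G p ∂(Pool.Agent.H35.GLB.mz K) := by
    unfold Pool.Agent.H35.GLB.mz
    rw [lintegral_prod _ hGm.aemeasurable]
  rw [h2]
  simp only [hG]
  rw [lintegral_tsum fun x => ((hm x).const_mul E).aemeasurable]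
  have h3 : ∀ x : {x : K // x ∈ M ∧ x ≠ 0},
      ∫⁻ p : logSpace K × ℝ, E * QQ τ₁ (idl K M x) (p.1 + zl K x, p.2)
        ∂(Pool.Agent.H35.GLB.mz K) =
      E * ∫⁻ p : logSpace K × ℝ, QQ τ₁ (idl K M x) (p.1 + zl K x, p.2)
        ∂(Pool.Agent.H35.GLB.mz K) := fun x => lintegral_const_mul E (hm x)
  simp only [h3]
  rw [ENNReal.tsum_mul_left, unf_pos M hM (QQ τ₁) (QQ_meas τ₁)]

end

open scoped Classical in
/-- (TV) the trivial bound. -/
theorem pf_P_TV (hPK : A_PK) (hSE : Pool.Agent.H23.LB.T_SE) (hVL : U_VL) (hCG : U_CG) :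
    P_TV := by
  intro n hn0 κ hκ hκ1
  obtain ⟨C, hC, h⟩ := sum_QQ hSE hVL n κ hκ
  refine ⟨max 1 (Real.exp 8 ^ n * (((2 * n) ^ (n + 2) : ℕ) * C)), le_max_left _ _,
    fun K _ _ hn f hf χ ι _ M hM μ τ₁ hμ => ?_⟩
  have h1 : ∑ c, ∫⁻ z in Fd K, ∫⁻ τ in Icc τ₁ (τ₁ + 1),
      ENNReal.ofReal ‖SS χ (M c) (yM K (M c) τ z) μ‖ ≤
      ∑ c, ENNReal.ofReal (Real.exp 8 ^ n) * ((torsionOrder K : ℝ≥0∞) *
        ∑' J : {J : Ideal (𝓞 K) // Pri K (M c) J}, ∫⁻ p, QQ τ₁ J.1 p) :=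
    Finset.sum_le_sum fun c _ => cls_le hn hPK hf hCG χ (M c) (hM.1 c) μ hμ τ₁
  refine h1.trans ?_
  rw [← Finset.mul_sum, ← Finset.mul_sum, cls_pos M hM (fun J => ∫⁻ p, QQ τ₁ J p)]
  have h2 : (torsionOrder K : ℝ≥0∞) ≤ ENNReal.ofReal (((2 * n) ^ (n + 2) : ℕ) : ℝ) := by
    rw [ENNReal.ofReal_natCast]
    exact_mod_cast Pool.Agent.H26.MV.torsion_bound n K hn
  calc ENNReal.ofReal (Real.exp 8 ^ n) * ((torsionOrder K : ℝ≥0∞) *
        ∑' J : NZI K, ∫⁻ p, QQ τ₁ J.1 p) ≤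
      ENNReal.ofReal (Real.exp 8 ^ n) * (ENNReal.ofReal (((2 * n) ^ (n + 2) : ℕ) : ℝ) *
        ENNReal.ofReal (C * Real.exp (-τ₁) ^ (1 + κ))) := by
        gcongr
        exact h K hn τ₁
    _ = ENNReal.ofReal (Real.exp 8 ^ n * (((2 * n) ^ (n + 2) : ℕ) * C) *
        Real.exp (-τ₁) ^ (1 + κ)) := by
        rw [← ENNReal.ofReal_mul (by positivity), ← ENNReal.ofReal_mul (by positivity)]
        congr 1
        ring
    _ ≤ _ := by
        refine ENNReal.ofReal_le_ofReal ?_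
        exact mul_le_mul_of_nonneg_right (le_max_right _ _) (by positivity)

end Pool.Agent.H60.BH
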